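import Pool.Agent.HypLin.Final

/-!
# Transversals of linear hypergraphs with edges of size at least five

A hypergraph is linear if two distinct edges share at most one vertex. Every linear hypergraph with `n`
vertices and `m` edges, all of size at least five, has a transversal `T` with
`3213 |T| ≤ 653 n + 512 m`. For `m = n` this is `1165 n / 3213 < 4 n / 11`.
-/

set_option autoImplicit false

namespace Pool.Agent.Results.MP_d86b7f_co.LinearHypergraphs

theorem result {V κ : Type*} [Fintype V] [DecidableEq V] [Fintype κ]
    (e : κ → Finset V) (h5 : ∀ k, 5 ≤ (e k).card)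
    (hlin : ∀ k k', k ≠ k' → (e k ∩ e k').card ≤ 1) :
    ∃ T : Finset V, (∀ k, (e k ∩ T).Nonempty) ∧
      3213 * T.card ≤ 653 * Fintype.card V + 512 * Fintype.card κ := by
  obtain ⟨T, h1, h2, -, -⟩ := Pool.Agent.HypLin.linear_transversal e h5 hlin
  exact ⟨T, h1, h2⟩

end Pool.Agent.Results.MP_d86b7f_co.LinearHypergraphs
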