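import Pool.Agent.Hyp5.Final

/-!
# Transversals of 5-uniform hypergraphs of maximum degree three

The sharp bound `70 τ ≤ 21 n₃ + 18 n₂ + 14 n₁` for 5-uniform hypergraphs in which every vertex lies in
at most three edges, `n_i` being the number of vertices in exactly `i` edges.
-/

set_option autoImplicit false

namespace Pool.Agent.Results.MP_d86b7f_co.MaxDegreeThree

open Finset

theorem result {V κ : Type*} [Fintype V] [DecidableEq V] [Fintype κ]
    (e : κ → Finset V) (h5 : ∀ k, (e k).card = 5)
    (h3 : ∀ v, (univ.filter (fun k => v ∈ e k)).card ≤ 3) :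
    ∃ T : Finset V, (∀ k, (e k ∩ T).Nonempty) ∧
      70 * T.card ≤ 21 * (univ.filter (fun v => (univ.filter (fun k => v ∈ e k)).card = 3)).card +
        18 * (univ.filter (fun v => (univ.filter (fun k => v ∈ e k)).card = 2)).card +
        14 * (univ.filter (fun v => (univ.filter (fun k => v ∈ e k)).card = 1)).card :=
  Pool.Agent.Hyp5.transversal3 e h5 h3

end Pool.Agent.Results.MP_d86b7f_co.MaxDegreeThree
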