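import Pool.Agent.Hyp5.Final

/-!
# Transversals of hypergraphs with edges of size at least five

Every hypergraph with `n` vertices and `m` edges, all of size at least five (repeated edges allowed),
has a transversal of size at most `(11 n + 8 m) / 51`. For `m = n` this is `19 n / 51`.
-/

set_option autoImplicit false

namespace Pool.Agent.Results.MP_d86b7f_co.TransversalBound

theorem result {V κ : Type*} [Fintype V] [DecidableEq V] [Fintype κ]
    (e : κ → Finset V) (h5 : ∀ k, 5 ≤ (e k).card) :
    ∃ T : Finset V, (∀ k, (e k ∩ T).Nonempty) ∧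
      51 * T.card ≤ 11 * Fintype.card V + 8 * Fintype.card κ := by
  have h1 : ∀ k, ∃ t ⊆ e k, t.card = 5 := fun k => Finset.exists_subset_card_eq (h5 k)
  choose f hf hf5 using h1
  obtain ⟨T, hT, hc⟩ := Pool.Agent.Hyp5.transversal5 f hf5
  exact ⟨T, fun k => (hT k).mono (Finset.inter_subset_inter_right (hf k)), hc⟩

end Pool.Agent.Results.MP_d86b7f_co.TransversalBound
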